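import Pool.Agent.MWL.Stmts

/-! # Row ABS of squad MWL -/

set_option autoImplicit false

namespace Pool.Agent.MWL.H22

open Pool.Agent.MVO

theorem abs (hT : TrnStmt) (hH : HvpStmt) : AbsStmt := by
  classical
  intro n R hR k a
  have key : ∀ (a : ℕ → ℕ) (S : Finset ℕ), (∀ i ∈ S, Ab n R k a i) →
      R.R k a (fun j => a j + if j ∈ S then 2 * n else 0) := by
    intro a S
    induction S using Finset.induction_on with
    | empty =>
      intro _
      refine R.ext (fun j _ => rfl) (fun j _ => ?_) (R.refl k a)
      simp
    | insert i S hi ih =>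
      intro h
      have h1 := ih fun j hj => h j (Finset.mem_insert_of_mem hj)
      have h2 : Ab n R k (fun j => a j + if j ∈ S then 2 * n else 0) i :=
        (hT n R k a i).2.1 (fun j => if j ∈ S then 2 * n else 0)
          (h i (Finset.mem_insert_self i S))
      refine R.trans h1 (R.ext (fun j _ => rfl) (fun j _ => ?_) h2)
      unfold ad
      beta_reduce
      by_cases hj : j = i
      · subst hj
        rw [if_neg hi, if_pos rfl, if_pos (Finset.mem_insert_self j S), add_zero]
      · by_cases hjS : j ∈ S
        · rw [if_pos hjS, if_neg hj, if_pos (Finset.mem_insert_of_mem hjS), add_zero]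
        · rw [if_neg hjS, if_neg hj, if_neg, add_zero]
          intro h3
          rcases Finset.mem_insert.1 h3 with h4 | h4
          · exact hj h4
          · exact hjS h4
  refine ⟨key a, fun b hab => ?_⟩
  set S : Finset ℕ := (Finset.range (k + 1)).filter fun j => Hv a j ∧ Hv b j ∧ a j ≡ b j [MOD n]
    with hS
  have hSk : ∀ i ∈ S, i ≤ k := by
    intro i hi
    have h1 := (Finset.mem_filter.1 hi).1
    rw [Finset.mem_range] at h1
    omega
  have hn := hR.pos
  have ha := key a S fun i hi => (hH n R hR k a i (hSk i hi)).1 (Finset.mem_filter.1 hi).2.1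
  have hb := key b S fun i hi => (hH n R hR k b i (hSk i hi)).1 (Finset.mem_filter.1 hi).2.2.1
  set a' : ℕ → ℕ := fun j => a j + if j ∈ S then 2 * n else 0 with ha'
  set b' : ℕ → ℕ := fun j => b j + if j ∈ S then 2 * n else 0 with hb'
  have hT' : ∀ T : Finset ℕ, T ⊆ S → R.R k a' (fun j => if j ∈ T then b' j else a' j) := by
    intro T
    induction T using Finset.induction_on with
    | empty =>
      intro _
      refine R.ext (fun j _ => rfl) (fun j _ => ?_) (R.refl k a')
      simp
    | insert i T hi ih =>
      intro hTS
      have hiS : i ∈ S := hTS (Finset.mem_insert_self i T)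
      have h1 := ih fun j hj => hTS (Finset.mem_insert_of_mem hj)
      have hai : a' i = a i + 2 * n := by
        rw [ha']
        simp only [if_pos hiS]
      have hbi : b' i = b i + 2 * n := by
        rw [hb']
        simp only [if_pos hiS]
      have h2 := (hH n R hR k (fun j => if j ∈ T then b' j else a' j) i (hSk i hiS)).2 (b' i)
        (by rw [if_neg hi, hai]; omega) (by rw [hbi]; omega) (by
          rw [if_neg hi, hai, hbi]
          exact Nat.ModEq.add_right _ (Finset.mem_filter.1 hiS).2.2.2)
      refine R.trans h1 (R.ext (fun j _ => rfl) (fun j _ => ?_) h2)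
      by_cases hj : j = i
      · subst hj
        rw [Function.update_self, if_pos (Finset.mem_insert_self j T)]
      · rw [Function.update_of_ne hj]
        by_cases hjT : j ∈ T
        · rw [if_pos hjT, if_pos (Finset.mem_insert_of_mem hjT)]
        · rw [if_neg hjT, if_neg]
          intro h3
          rcases Finset.mem_insert.1 h3 with h4 | h4
          · exact hj h4
          · exact hjT h4
  have h3 : R.R k a' b' := by
    refine R.ext (fun j _ => rfl) (fun j hj => ?_) (hT' S (Finset.Subset.refl S))
    by_cases hjS : j ∈ S
    · rw [if_pos hjS]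
    · rw [if_neg hjS]
      have h4 : a j = b j := by
        rcases hab j hj with h5 | h5
        · exact h5
        · exact absurd (Finset.mem_filter.2 ⟨Finset.mem_range.2 (by omega), h5⟩) hjS
      rw [ha', hb']
      simp only [if_neg hjS, h4]
  exact R.trans ha (R.trans h3 (R.symm hb))

end Pool.Agent.MWL.H22
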